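import Pool.Agent.H477.O.Stm

/-!
# Project O of helper477: comparison of the normalizations at near heights
-/

set_option autoImplicit false

open Complex Filter Topology Metric Set MeasureTheory
open scoped ComplexConjugate

namespace Pool.Agent.H477.O

theorem OCMP_proof : S_OCMP := by
  intro a K D S hD hS
  have hlog : 0 ≤ Real.log (1 + S) := Real.log_nonneg (by linarith)
  refine ⟨Real.exp (|a| * (D * Real.log (1 + S)) + |K| * (2 + 2 * a ^ 2 + S ^ 2)), ?_, ?_⟩
  · exact Real.one_le_exp (by positivity)
  · intro X S' c σ Mf lf y₀ hF y y' hy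
    have h1 := hF.base y
    have h2 := hF.base y'
    have ha : 0 < a := h1.ha
    have hK : 0 < K := by linarith [h1.hK]
    have hM : 0 < Mf y := h1.hM
    have hpt : pt y' a 0 = pt y a (y' - y) := by
      unfold pt
      congr 3
      ring
    have hlo := h2.lo a 0 le_rfl
    have hup := h1.up a (y' - y)
    rw [hpt] at hlo
    rw [abs_of_pos ha, max_self] at hup
    have hlip := hF.lip y' y
    have h3 : Real.log (1 + |y - y'|) ≤ Real.log (1 + S) := by
      refine Real.log_le_log (by positivity) ?_
      rw [abs_sub_comm]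
      linarith
    have h4 : lf y ≤ lf y' + D * Real.log (1 + S) :=
      hlip.trans (by gcongr)
    have h5 : (y' - y) ^ 2 ≤ S ^ 2 := by
      rw [← sq_abs (y' - y)]
      exact pow_le_pow_left₀ (abs_nonneg _) hy 2
    rw [abs_of_pos ha, abs_of_pos hK]
    have h6 := hlo.trans hup
    have h7 : Mf y' ≤ Mf y * Real.exp (lf y * a + K * (1 + a ^ 2 + (y' - y) ^ 2)) /
        Real.exp (lf y' * a - K * (1 + a ^ 2 + 0 ^ 2)) := by
      rw [le_div_iff₀ (Real.exp_pos _)]
      exact h6
    refine h7.trans ?_
    rw [mul_div_assoc, ← Real.exp_sub, mul_comm]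
    refine mul_le_mul_of_nonneg_right (Real.exp_le_exp.2 ?_) hM.le
    have h8 : lf y * a ≤ (lf y' + D * Real.log (1 + S)) * a :=
      mul_le_mul_of_nonneg_right h4 ha.le
    have h9 : K * (y' - y) ^ 2 ≤ K * S ^ 2 := mul_le_mul_of_nonneg_left h5 hK.le
    nlinarith

end Pool.Agent.H477.O
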